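import Pool.Agent.Helper1x.EC.Sub

/-!
# Boolean versions for multidimensional matching, restriction to a block: pieces

Project EM (helper1), second part. `Pool.Agent.Helper1x.EC.sHom ι` (in `EC/Sub.lean`) is the substitution
`x(i, c) ↦ x(a, c')` if `(i, c) = sEmb ι (a, c')`, `x(i, c) ↦ 1` if `i` is not in the range of `ι` and `c` is constant `i`,
`x(i, c) ↦ 0` otherwise. See `EC/Sub.lean` for its properties (`sHom_X`, `sVal_emb`, `sVal_one`, `sVal_zero`,
`sVal_cases`, `sPsi`, `sPsi_inj`, `sVal_prod_zero`). A file `Pool/Agent/Helper1x/EM/<Name>.lean` proves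
`theorem Pool.Agent.Helper1x.EM.t_<NAME> : S_<NAME>`.
-/

set_option autoImplicit false

namespace Pool.Agent.Helper1x.EM

open Finset Pool.Agent.Helper1x.EC

/-- the variables of a matching -/
def cells {n e : ℕ} (σ : Fin e → Equiv.Perm (Fin n)) : Finset (Fin n × (Fin e → Fin n)) :=
  univ.image fun i => (i, fun s => σ s i)

open Classical in
/-- the extension of a hypergraph on the block by the diagonal edges outside the block -/
noncomputable def extY {n e k : ℕ} (ι : Fin k ↪ Fin n) (Y : Finset (Fin k × (Fin e → Fin k))) :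
    Finset (Fin n × (Fin e → Fin n)) :=
  Y.image (sEmb ι) ∪ univ.filter fun x => x.1 ∉ Set.range ι ∧ ∀ s, x.2 s = x.1

/-- BLV. Values of the substituted polynomial. (`MvPolynomial.eval` of `aeval (sVal ι) f` is `eval` of `f` at
`fun x => eval y (sVal ι x)`, compare the two points by `sVal_cases`; note that `sEmb ι y` has its first coordinate in the
range of `ι`.) -/
def S_BLV : Prop := ∀ (K : Type) [Field K] (n e k : ℕ) (ι : Fin k ↪ Fin n) (f : MvPolynomial (V n e) K)
  (Y : Finset (Fin k × (Fin e → Fin k))),
  MvPolynomial.eval (fun y => if y ∈ Y then (1 : K) else 0) (sHom ι f) =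
    MvPolynomial.eval (fun x => if x ∈ extY ι Y then (1 : K) else 0) f

/-- BLD. Degrees of the substituted polynomial: `sHom ι` maps the monomial with exponents `m` to zero or to the monomial
with exponents `m ∘ sEmb ι`. -/
def S_BLD : Prop := ∀ (K : Type) [Field K] (n e k D : ℕ) (ι : Fin k ↪ Fin n) (f : MvPolynomial (V n e) K),
  (∀ x, f.degreeOf x ≤ D) → ∀ y, (sHom ι f).degreeOf y ≤ D

/-- BLM. The perfect matchings of the extended hypergraph: `τ ↦ sPsi ι τ` is a bijection between them. (The proof that
every matching in `extY ι Y` is of the form `sPsi ι τ` is as in `sVal_prod_zero`.) -/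
def S_BLM : Prop := ∀ (n e k : ℕ) (ι : Fin k ↪ Fin n) (Y : Finset (Fin k × (Fin e → Fin k))),
  (univ.filter fun σ : Fin e → Equiv.Perm (Fin n) => cells σ ⊆ extY ι Y).card =
    (univ.filter fun τ : Fin e → Equiv.Perm (Fin k) => cells τ ⊆ Y).card

end Pool.Agent.Helper1x.EM
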