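import Pool.Agent.Helper1x.EC.Def

/-!
# Boolean versions of the theorem on equivariant circuits for multidimensional matching: pieces

Project EM (helper1). Monomials with multiplicities: a monomial supported on the variables `x(i, σ_1 i, ..., σ_e i)` of a
matching `σ` is given by the exponents `P i ≤ D`. A file `Pool/Agent/Helper1x/EM/<Name>.lean` proves
`theorem Pool.Agent.Helper1x.EM.t_<NAME> : S_<NAME>` (helper lemmas in `namespace Pool.Agent.Helper1x.EM.<NAME>`).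
-/

set_option autoImplicit false

namespace Pool.Agent.Helper1x.EM

open Finset

/-- the torus element `(S, T)` is generic of level `D`: in a multiplicative relation with exponents of absolute value at
most `2 D` the exponents of `S` are all equal, and so are those of `T s` for each `s` -/
def Generic {n e : ℕ} {H : Type*} [CommGroup H] (D : ℕ) (S : Fin n → H) (T : Fin e → Fin n → H) : Prop :=
  ∀ (P : Fin n → ℤ) (Q : Fin e → Fin n → ℤ), (∀ i, |P i| ≤ 2 * D) → (∀ s j, |Q s j| ≤ 2 * D) →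
    (∏ i, S i ^ P i) * (∏ s, ∏ j, T s j ^ Q s j) = 1 → (∀ i i', P i = P i') ∧ ∀ s j j', Q s j = Q s j'

/-- the weight of the monomial with the exponents `P i` of the variables of the matching `σ` -/
def wtp {n e : ℕ} {H : Type*} [CommGroup H] (S : Fin n → H) (T : Fin e → Fin n → H) (σ : Fin e → Equiv.Perm (Fin n))
    (P : Fin n → ℕ) : H := ∏ i, (S i * ∏ s, T s (σ s i)) ^ P i

/-- WTA. Equal weights. Proof. The exponents `P i - P' i` are equal to a constant `c` and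
`P ((σ s)⁻¹ j) - P' ((σ' s)⁻¹ j)` to a constant `c s`; sum over `j`: `c = c s`. So
`P ((σ s)⁻¹ j) = P' ((σ' s)⁻¹ j) + c = P ((σ' s)⁻¹ j)`. -/
def S_WTA : Prop := ∀ (H : Type) [CommGroup H] (n e D : ℕ) (S : Fin n → H) (T : Fin e → Fin n → H), Generic D S T →
  ∀ (σ σ' : Fin e → Equiv.Perm (Fin n)) (P P' : Fin n → ℕ), (∀ i, P i ≤ D) → (∀ i, P' i ≤ D) →
  wtp S T σ P = wtp S T σ' P' → ∀ s j, P ((σ s)⁻¹ j) = P ((σ' s)⁻¹ j)

/-- WTB. Relative weights. Proof. `P + R₁ - P₁ - R` is a constant `c` and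
`P ∘ (σ s)⁻¹ + R₁ ∘ (σ₀ s)⁻¹ - P₁ ∘ (σ₁ s)⁻¹ - R ∘ (σ₀ s)⁻¹` is a constant `c s`; sum over `j`: `c = c s`. -/
def S_WTB : Prop := ∀ (H : Type) [CommGroup H] (n e D : ℕ) (S : Fin n → H) (T : Fin e → Fin n → H), Generic D S T →
  ∀ (σ₀ σ₁ σ : Fin e → Equiv.Perm (Fin n)) (P₁ R₁ P R : Fin n → ℕ), (∀ i, P₁ i ≤ D) → (∀ i, R₁ i ≤ D) →
  (∀ i, P i ≤ D) → (∀ i, R i ≤ D) → wtp S T σ P * wtp S T σ₀ R₁ = wtp S T σ₁ P₁ * wtp S T σ₀ R →
  ∀ s j, (P ((σ s)⁻¹ j) : ℤ) - P ((σ₀ s)⁻¹ j) = P₁ ((σ₁ s)⁻¹ j) - P₁ ((σ₀ s)⁻¹ j)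

/-- CNA. Tuples of permutations with a prescribed image of a set. -/
def S_CNA : Prop := ∀ (n e : ℕ) (B : Finset (Fin n)) (C : Fin e → Finset (Fin n)),
  (univ.filter fun σ : Fin e → Equiv.Perm (Fin n) => ∀ s, B.image (σ s) = C s).card ≤
    (B.card.factorial * (n - B.card).factorial) ^ e

/-- CNB. Tuples of permutations with a vector `P` of support size in `[w0, w1)` such that
`P ∘ (σ s)⁻¹ - P ∘ (σ₀ s)⁻¹` is the given function `g s` (`P` is not fixed). Proof. Let `B` be the support of `P` and for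
`i ∈ B` let `τ i` be `some s` for one `s` such that `P i + g s (σ₀ s i) = 0`, and `none` if there is no such `s`. Then
`B.image (σ s)`, the support of `P ∘ (σ s)⁻¹ = P ∘ (σ₀ s)⁻¹ + g s`, depends only on `B` and `τ`: it contains `σ₀ s i` for
`i ∉ B` if and only if `g s (σ₀ s i) ≠ 0`, and for `i ∈ B` unless `τ i = some s'` with
`g s (σ₀ s i) = g s' (σ₀ s' i)`. There are `(e + 1) ^ |B|` functions `τ` on `B`, now use CNA. -/
def S_CNB : Prop := S_CNA → ∀ (n e w0 w1 : ℕ) (σ₀ : Fin e → Equiv.Perm (Fin n)) (g : Fin e → Fin n → ℤ)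
  (X : Finset (Fin e → Equiv.Perm (Fin n))), (∀ σ ∈ X, ∃ P : Fin n → ℕ, w0 ≤ (univ.filter fun i => P i ≠ 0).card ∧
    (univ.filter fun i => P i ≠ 0).card < w1 ∧ ∀ s j, (P ((σ s)⁻¹ j) : ℤ) - P ((σ₀ s)⁻¹ j) = g s j) →
  X.card ≤ ∑ w ∈ Finset.Ico w0 w1, n.choose w * ((e + 1) ^ w * (w.factorial * (n - w).factorial) ^ e)

/-- NMA. Numbers for the cuts. (`n! = C w! (n - w)!` with `C = n.choose w ≥ n.choose a ≥ (n / a) ^ a ≥ 20 ^ a`; so
`C ^ 20 ≥ 2 ^ (40 a) ≥ 2 ^ n`.) -/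
def S_NMA : Prop := ∀ n e a w : ℕ, n ≤ 40 * a → 20 * a ≤ n → a ≤ w → w + a ≤ n →
  ((w.factorial * (n - w).factorial) ^ e) ^ 20 * 2 ^ (e * n) ≤ (n.factorial ^ e) ^ 20

/-- NMB. Numbers for the relative cuts. With `C = n.choose w ≥ (n / w) ^ w ≥ 7 ^ w` and `n! = C w! (n - w)!` the claim
follows from `b ^ 20 (e + 1) ^ (20 w) 2 ^ (e n) ≤ C ^ (20 (e - 1))`; `n ≤ 10 w`, `b ^ 20 ≤ 4 ^ w` (as
`b ≤ w / 4 + 1 ≤ 2 ^ (w / 10)`) and `4 * 2 ^ (10 e) * (e + 1) ^ 20 ≤ 7 ^ (20 (e - 1))` for `e ≥ 2` (induction; `e = 2`: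
`4 * 6 ^ 20 ≤ 7 ^ 20`). -/
def S_NMB : Prop := ∀ n e b w : ℕ, 400 ≤ n → 2 ≤ e → n ≤ 10 * w → 7 * w ≤ n → 4 * b ≤ w + 4 →
  (b * (n.choose w * ((e + 1) ^ w * (w.factorial * (n - w).factorial) ^ e))) ^ 20 * 2 ^ (e * n) ≤ (n.factorial ^ e) ^ 20

/-- GEM. Generic elements of every level exist over infinite fields (compare `EC/Gen.lean` and `EB/Genb.lean`). -/
def S_GEM : Prop := ∀ (K : Type) [Field K] [Infinite K] (n e D : ℕ), ∃ (S : Fin n → Kˣ) (T : Fin e → Fin n → Kˣ),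
  Generic D S T

/-- GEI. In characteristic zero there is an element which is generic of all levels (distinct prime numbers; compare
`EB/Geni.lean`). -/
def S_GEI : Prop := ∀ (K : Type) [Field K] [CharZero K] (n e : ℕ), ∃ (S : Fin n → Kˣ) (T : Fin e → Fin n → Kˣ),
  ∀ D, Generic D S T

/-- DTB. Bipartite matching: with suitable weights `ξ` one determinant decides for all bipartite graphs whether there is a
perfect matching. (For each `Y` which contains the graph of a permutation the determinant is a nonzero polynomial in `ξ`;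
there are finitely many `Y`, and the field is infinite; compare `Pool.Agent.Helper1x.EQ.exists_generic` or use
`MvPolynomial.funext` for the product of these polynomials.) -/
def S_DTB : Prop := ∀ (K : Type) [Field K] [Infinite K] (n : ℕ), ∃ ξ : Fin n → Fin n → K,
  ∀ Y : Finset (Fin n × Fin n), (Matrix.of fun u v : Fin n => if (v, u) ∈ Y then ξ v u else 0).det ≠ 0 ↔
    ∃ π : Equiv.Perm (Fin n), ∀ i, (i, π i) ∈ Y

end Pool.Agent.Helper1x.EM
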