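import Pool.Agent.Helper1x.EM.Trav
import Pool.Agent.Helper1x.EM.Def
import Pool.Agent.Helper1x.EG.Low

/-!
# The lower bound for matchings, monomials with multiplicities
-/

set_option autoImplicit false

namespace Pool.Agent.Helper1x.EM

open Finset Pool.Agent.Helper1x.EB
open Pool.Agent.Helper1x.EC (V Circuit Earlier cof ju ju_injective)
open Pool.Agent.Helper1x.EG (sum_sq2)
open Pool.Agent.Helper1x.EP (mwt)

section

variable {n e : ℕ} {K : Type} [Field K]

theorem Generic.map {D : ℕ} {H H' : Type*} [CommGroup H] [CommGroup H'] {S : Fin n → H} {T : Fin e → Fin n → H}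
    (h : Generic D S T) (φ : H →* H') (hφ : Function.Injective φ) :
    Generic D (fun i => φ (S i)) fun s j => φ (T s j) := by
  intro P Q hP hQ h1
  refine h P Q hP hQ (hφ ?_)
  rw [map_one, ← h1]
  simp only [map_mul, map_prod, map_zpow]

theorem perm_inv_apply (π : Equiv.Perm (Fin n)) (i : Fin n) : π⁻¹ (π i) = i := by
  rw [Equiv.Perm.inv_def, Equiv.symm_apply_apply]

theorem perm_apply_inv (π : Equiv.Perm (Fin n)) (i : Fin n) : π (π⁻¹ i) = i := by
  rw [Equiv.Perm.inv_def, Equiv.apply_symm_apply]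

/-- the variable of a matching in row `i` -/
def cell (σ : Fin e → Equiv.Perm (Fin n)) (i : Fin n) : V n e := (i, fun s => σ s i)

theorem cell_injective (σ : Fin e → Equiv.Perm (Fin n)) : Function.Injective (cell σ) := fun _ _ h =>
  congrArg Prod.fst h

/-- the exponents of a monomial at the variables of a matching -/
def ex (σ : Fin e → Equiv.Perm (Fin n)) (u : V n e →₀ ℕ) (i : Fin n) : ℕ := u (cell σ i)

/-- the monomials of a matching -/
def Good (D : ℕ) (σ : Fin e → Equiv.Perm (Fin n)) (u : V n e →₀ ℕ) : Prop :=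
  (∀ β, u β ≠ 0 → ∃ i, cell σ i = β) ∧ ∀ β, u β ≤ D

/-- the rows which occur in a monomial of a matching -/
def sp (σ : Fin e → Equiv.Perm (Fin n)) (u : V n e →₀ ℕ) : Finset (Fin n) := univ.filter fun i => ex σ u i ≠ 0

theorem Good.mono {D : ℕ} {σ : Fin e → Equiv.Perm (Fin n)} {u v : V n e →₀ ℕ} (h : u ≤ v)
    (hv : Good D σ v) : Good D σ u := by
  refine ⟨fun β hβ => hv.1 β ?_, fun β => (h β).trans (hv.2 β)⟩
  have := h β
  omega

theorem sz_eq {D : ℕ} {σ : Fin e → Equiv.Perm (Fin n)} {u : V n e →₀ ℕ} (hu : Good D σ u) :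
    sz u = (sp σ u).card := by
  classical
  have h1 : u.support = (sp σ u).image (cell σ) := by
    ext β
    rw [Finsupp.mem_support_iff, mem_image]
    constructor
    · intro hβ
      obtain ⟨i, rfl⟩ := hu.1 β hβ
      exact ⟨i, mem_filter.2 ⟨mem_univ _, hβ⟩, rfl⟩
    · rintro ⟨i, hi, rfl⟩
      exact (mem_filter.1 hi).2
  unfold sz
  rw [h1, Finset.card_image_of_injective _ (cell_injective σ)]

theorem wL_wp {L : Type} [Field L] [Algebra K L] {D : ℕ} (S : Fin n → Kˣ) (T : Fin e → Fin n → Kˣ)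
    {σ : Fin e → Equiv.Perm (Fin n)} {u : V n e →₀ ℕ} (hu : Good D σ u) :
    wL L (cof S T) u = wtp (fun i => ju K L (S i)) (fun s j => ju K L (T s j)) σ (ex σ u) := by
  classical
  rw [wL_eq]
  unfold mwt wtp
  have h1 : u.support ⊆ univ.image (cell σ) := by
    intro β hβ
    obtain ⟨i, rfl⟩ := hu.1 β (Finsupp.mem_support_iff.1 hβ)
    exact mem_image_of_mem _ (mem_univ i)
  rw [Finsupp.prod_of_support_subset u h1 _ fun β _ => pow_zero _,
    Finset.prod_image fun i _ i' _ h => cell_injective σ h]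
  refine Finset.prod_congr rfl fun i _ => ?_
  simp only [cof, cell, ex, map_mul, map_prod]

/-- a small set of matchings -/
def SmallM (X : Finset (Fin e → Equiv.Perm (Fin n))) : Prop :=
  X.card ^ 20 * 2 ^ (e * n) ≤ (n.factorial ^ e) ^ 20

theorem smallM_empty : SmallM (∅ : Finset (Fin e → Equiv.Perm (Fin n))) := by
  unfold SmallM
  rw [Finset.card_empty, zero_pow (by norm_num), zero_mul]
  exact Nat.zero_le _

variable {D : ℕ} {S : Fin n → Kˣ} {T : Fin e → Fin n → Kˣ}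

/-- the matchings with a cut of a given weight -/
theorem small_cut (hWTA : S_WTA) (hCNA : S_CNA) (hNMA : S_NMA) (hgen : Generic D S T) {a : ℕ} (ha : n ≤ 40 * a)
    (ha2 : 20 * a ≤ n) (h : Kˣ) {X : Finset (Fin e → Equiv.Perm (Fin n))}
    (hX : ∀ σ ∈ X, ∃ u, Good D σ u ∧ a ≤ sz u ∧ sz u ≤ n - a ∧ wtp S T σ (ex σ u) = h) : SmallM X := by
  classical
  rcases X.eq_empty_or_nonempty with h0 | ⟨σ₁, hσ₁⟩
  · rw [h0]
    exact smallM_empty
  obtain ⟨u1, h1, h2, h3, h4⟩ := hX σ₁ hσ₁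
  rw [sz_eq h1] at h2 h3
  have hmem : ∀ (σ : Fin e → Equiv.Perm (Fin n)) s j, j ∈ (sp σ₁ u1).image (σ s) ↔ ex σ₁ u1 ((σ s)⁻¹ j) ≠ 0 := by
    intro σ s j
    rw [mem_image]
    constructor
    · rintro ⟨i, hi, rfl⟩
      rw [perm_inv_apply]
      exact (mem_filter.1 hi).2
    · intro hj
      exact ⟨(σ s)⁻¹ j, mem_filter.2 ⟨mem_univ _, hj⟩, perm_apply_inv _ _⟩
  have hsub : X ⊆ univ.filter fun σ : Fin e → Equiv.Perm (Fin n) =>
      ∀ s, (sp σ₁ u1).image (σ s) = (sp σ₁ u1).image (σ₁ s) := by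
    intro σ hσ
    obtain ⟨u, h5, h6, h7, h8⟩ := hX σ hσ
    refine mem_filter.2 ⟨mem_univ _, fun s => ?_⟩
    ext j
    rw [hmem, hmem, hWTA Kˣ n e D S T hgen σ₁ σ (ex σ₁ u1) (ex σ u) (fun i => h1.2 _) (fun i => h5.2 _)
      (h4.trans h8.symm) s j]
  have h5 := (Finset.card_le_card hsub).trans (hCNA n e (sp σ₁ u1) fun s => (sp σ₁ u1).image (σ₁ s))
  unfold SmallM
  calc X.card ^ 20 * 2 ^ (e * n) ≤
      (((sp σ₁ u1).card.factorial * (n - (sp σ₁ u1).card).factorial) ^ e) ^ 20 * 2 ^ (e * n) :=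
        Nat.mul_le_mul_right _ (Nat.pow_le_pow_left h5 20)
    _ ≤ (n.factorial ^ e) ^ 20 := hNMA n e a _ ha ha2 h2 (by omega)

/-- the matchings with a relative cut -/
theorem small_rel (hWTB : S_WTB) (hCNA : S_CNA) (hCNB : S_CNB) (hNMB : S_NMB) (hn : 400 ≤ n) (he : 2 ≤ e)
    (hgen : Generic D S T) {a w0 : ℕ} (ha : 1 ≤ a) (hw1 : n ≤ 10 * w0) (hw2 : 7 * (w0 + a) ≤ n + 7)
    (hw3 : 4 * a ≤ w0 + 4) (σ₀ : Fin e → Equiv.Perm (Fin n)) (b b' : Kˣ)
    {X : Finset (Fin e → Equiv.Perm (Fin n))}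
    (hX : ∀ σ ∈ X, ∃ u u', Good D σ u ∧ Good D σ₀ u' ∧ w0 ≤ sz u ∧ sz u < w0 + a ∧
      b * wtp S T σ₀ (ex σ₀ u') = b' * wtp S T σ (ex σ u)) : SmallM X := by
  classical
  rcases X.eq_empty_or_nonempty with h0 | ⟨σ₁, hσ₁⟩
  · rw [h0]
    exact smallM_empty
  obtain ⟨u1, u1', h1, h2, h3, h4, h5⟩ := hX σ₁ hσ₁
  have h6 := hCNB hCNA n e w0 (w0 + a) σ₀ (fun s j => (ex σ₁ u1 ((σ₁ s)⁻¹ j) : ℤ) - ex σ₁ u1 ((σ₀ s)⁻¹ j)) X (by
    intro σ hσ
    obtain ⟨u, u', h6, h7, h8, h9, h10⟩ := hX σ hσ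
    rw [sz_eq h6] at h8 h9
    refine ⟨ex σ u, h8, h9, ?_⟩
    refine hWTB Kˣ n e D S T hgen σ₀ σ₁ σ (ex σ₁ u1) (ex σ₀ u1') (ex σ u) (ex σ₀ u') (fun i => h1.2 _)
      (fun i => h2.2 _) (fun i => h6.2 _) (fun i => h7.2 _) ?_
    have h12 : b' * b * (wtp S T σ (ex σ u) * wtp S T σ₀ (ex σ₀ u1')) =
        b' * b * (wtp S T σ₁ (ex σ₁ u1) * wtp S T σ₀ (ex σ₀ u')) := by
      calc b' * b * (wtp S T σ (ex σ u) * wtp S T σ₀ (ex σ₀ u1'))
          = (b' * wtp S T σ (ex σ u)) * (b * wtp S T σ₀ (ex σ₀ u1')) := by rw [mul_mul_mul_comm]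
        _ = (b * wtp S T σ₀ (ex σ₀ u')) * (b' * wtp S T σ₁ (ex σ₁ u1)) := by rw [h10, h5]
        _ = (b' * wtp S T σ₁ (ex σ₁ u1)) * (b * wtp S T σ₀ (ex σ₀ u')) := mul_comm _ _
        _ = b' * b * (wtp S T σ₁ (ex σ₁ u1) * wtp S T σ₀ (ex σ₀ u')) := by rw [mul_mul_mul_comm]
    exact mul_left_cancel h12)
  set f : ℕ → ℕ := fun w => n.choose w * ((e + 1) ^ w * (w.factorial * (n - w).factorial) ^ e) with hf
  obtain ⟨w, hw, hmax⟩ := Finset.exists_max_image (Finset.Ico w0 (w0 + a)) f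
    ⟨w0, Finset.mem_Ico.2 ⟨le_rfl, by omega⟩⟩
  have h7 : X.card ≤ a * f w := by
    refine h6.trans ((Finset.sum_le_card_nsmul _ _ (f w) hmax).trans ?_)
    rw [Nat.card_Ico, smul_eq_mul, Nat.add_sub_cancel_left]
  obtain ⟨hw4, hw5⟩ := Finset.mem_Ico.1 hw
  unfold SmallM
  calc X.card ^ 20 * 2 ^ (e * n) ≤ (a * f w) ^ 20 * 2 ^ (e * n) := Nat.mul_le_mul_right _ (Nat.pow_le_pow_left h7 20)
    _ ≤ (n.factorial ^ e) ^ 20 := hNMB n e a w hn he (by omega) (by omega) (by omega)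

/-- A monomial of weight one is constant or has all rows. -/
theorem unit_case (hWTA : S_WTA) (he : 1 ≤ e) (hgen : Generic D S T) {σ : Fin e → Equiv.Perm (Fin n)}
    {u : V n e →₀ ℕ} (hu : Good D σ u) (h : wtp S T σ (ex σ u) = 1) : u = 0 ∨ n ≤ sz u := by
  classical
  by_cases hu0 : u = 0
  · exact Or.inl hu0
  right
  obtain ⟨β, hβ⟩ := Finsupp.ne_iff.1 hu0
  obtain ⟨i0, rfl⟩ := hu.1 β hβ
  have hfull : ∀ i, i ∈ sp σ u := by
    intro i
    have h1 := hWTA Kˣ n e D S T hgen σ (fun s => σ s * Equiv.swap i i0) (ex σ u) (fun _ => 0) (fun i => hu.2 _)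
      (fun i => Nat.zero_le _) (by
        rw [h]
        simp [wtp]) ⟨0, by omega⟩ (σ ⟨0, by omega⟩ i)
    rw [perm_inv_apply, mul_inv_rev, Equiv.Perm.mul_apply, perm_inv_apply, Equiv.swap_inv,
      Equiv.swap_apply_left] at h1
    refine mem_filter.2 ⟨mem_univ _, ?_⟩
    rw [h1]
    exact hβ
  rw [sz_eq hu, Finset.eq_univ_iff_forall.2 hfull, Finset.card_univ, Fintype.card_fin]

open Classical in
/-- The lower bound. -/
theorem lower (hWTA : S_WTA) (hWTB : S_WTB) (hCNA : S_CNA) (hCNB : S_CNB) (hNMA : S_NMA) (hNMB : S_NMB)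
    (hn : 400 ≤ n) (he : 2 ≤ e) (hgen : Generic D S T) {G : ℕ} {p : ℕ → MvPolynomial (V n e) K}
    {m : ℕ → ℕ} (hc : Circuit (fun x => (cof S T x : K)) G p m) {f : MvPolynomial (V n e) K} (hf : f ∈ Earlier p G)
    {R : ℕ} (hR : n.factorial ^ e ≤ R * (univ.filter fun σ : Fin e → Equiv.Perm (Fin n) =>
      ∃ u, MvPolynomial.coeff u f ≠ 0 ∧ u.support = univ.image (cell σ) ∧ ∀ β, u β ≤ D).card) :
    2 ^ (e * n) ≤ (2 * R * (∑ j ∈ range G, (m j + 1)) ^ 2) ^ 20 := by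
  set s : ℕ := ∑ j ∈ range G, (m j + 1) with hs
  set a : ℕ := (n + 39) / 40 with ha
  set w0 : ℕ := (n + 9) / 10 with hw0
  set L := AlgebraicClosure K with hL
  set S' : Fin n → Lˣ := fun i => ju K L (S i) with hS'
  set T' : Fin e → Fin n → Lˣ := fun s j => ju K L (T s j) with hT'
  have hgen' : Generic D S' T' := hgen.map _ ju_injective
  set W : (V n e →₀ ℕ) → Lˣ := wL L (cof S T) with hW
  have hWm : Mult W := wL_mult
  have hwt : ∀ σ u, Good D σ u → W u = wtp S' T' σ (ex σ u) := fun σ u hu => wL_wp S T hu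
  choose l b μ hstr using fun j => circuit_str (L := L) (c := cof S T) hc j
  set Z : ∀ j, Finset (Fin (m j)) := fun j => univ.filter fun u => b j u ≠ μ j u with hZ
  have hdesc : ∀ σ, ∀ j < G, ∀ u, Occ p j u → Good D σ u → n - a < sz u →
      (∃ u', Good D σ u' ∧ a ≤ sz u' ∧ sz u' ≤ n - a ∧ W u' ∈ labels G m l b μ) ∨
      ∃ j < G, ∃ u' r E, Good D σ u' ∧ n - a < sz u' ∧ Walks W a (b j) (μ j) (Z j) u' r E := by
    intro σ
    exact descent (W := W) hWm (Good := Good D σ) (fun u v h hv => hv.mono h) (N := n) (G := G) (m := m)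
      (l := l) (b := b) (μ := μ) (Z := Z) (a := a) (by omega) (by omega) (fun u hu h1 => by
        rcases unit_case hWTA (by omega) hgen' hu (by rw [← hwt σ u hu]; exact h1) with h2 | h2
        · exact Or.inl h2
        · right
          omega) (Q := Occ p)
      (fun j hj u h => (hstr j hj).1 u h)
      (fun j hj z hz z' hz' => (hstr j hj).2.1 z z' (mem_filter.1 hz).2 (mem_filter.1 hz').2)
      (fun j hj u hu => by
        by_contra h
        exact hu (mem_filter.2 ⟨mem_univ _, h⟩))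
      (fun j hj => (hstr j hj).2.2)
  -- the largest size of a small set
  set q := n.factorial ^ e with hq
  set M := Nat.findGreatest (fun M => M ^ 20 * 2 ^ (e * n) ≤ q ^ 20) q with hM
  have hM1 : M ^ 20 * 2 ^ (e * n) ≤ q ^ 20 := by
    have h0 : (fun M => M ^ 20 * 2 ^ (e * n) ≤ q ^ 20) 0 := by simp
    exact Nat.findGreatest_spec (P := fun M => M ^ 20 * 2 ^ (e * n) ≤ q ^ 20) (Nat.zero_le q) h0
  have hM2 : ∀ X : Finset (Fin e → Equiv.Perm (Fin n)), SmallM X → X.card ≤ M := by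
    intro X hX
    refine Nat.le_findGreatest ?_ hX
    have h1 := Finset.card_le_univ X
    rwa [Fintype.card_fun, Fintype.card_perm, Fintype.card_fin, Fintype.card_fin] at h1
  set cutset : Lˣ → Finset (Fin e → Equiv.Perm (Fin n)) := fun h => univ.filter fun σ =>
    ∃ u, Good D σ u ∧ a ≤ sz u ∧ sz u ≤ n - a ∧ wtp S' T' σ (ex σ u) = h with hcut
  set walkset : ℕ → Finset (Fin e → Equiv.Perm (Fin n)) := fun j => univ.filter fun σ =>
    ∃ u r E, Good D σ u ∧ n - a < sz u ∧ Walks W a (b j) (μ j) (Z j) u r E with hwalk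
  have hcover : (univ.filter fun σ : Fin e → Equiv.Perm (Fin n) => ∃ u, MvPolynomial.coeff u f ≠ 0 ∧
      u.support = univ.image (cell σ) ∧ ∀ β, u β ≤ D) ⊆
      (labels G m l b μ).biUnion cutset ∪ (range G).biUnion walkset := by
    intro σ hσ
    obtain ⟨_, u, hu1, hu2, hu3⟩ := mem_filter.1 hσ
    have hgood : Good D σ u := by
      refine ⟨fun β hβ => ?_, hu3⟩
      have h1 := Finsupp.mem_support_iff.2 hβ
      rw [hu2] at h1
      obtain ⟨i, _, h2⟩ := mem_image.1 h1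
      exact ⟨i, h2⟩
    have hsz : sz u = n := by
      unfold sz
      rw [hu2, Finset.card_image_of_injective _ (cell_injective σ), Finset.card_univ, Fintype.card_fin]
    have h1 := part_of_earlier hf hu1
    rcases h1 with h1 | ⟨j, hj, h1⟩
    · omega
    · rw [mem_union]
      rcases hdesc σ j hj u h1 hgood (by omega) with ⟨u', h2, h3, h4, h5⟩ | ⟨i, hi, u', r, E, h2, h3, h4⟩
      · exact Or.inl (mem_biUnion.2 ⟨_, h5, mem_filter.2 ⟨mem_univ _, u', h2, h3, h4, (hwt σ u' h2).symm⟩⟩)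
      · exact Or.inr (mem_biUnion.2 ⟨i, mem_range.2 hi, mem_filter.2 ⟨mem_univ _, u', r, E, h2, h3, h4⟩⟩)
  have h1 : ((labels G m l b μ).biUnion cutset).card ≤ (G + ∑ j ∈ range G, m j * m j) * M := by
    refine Finset.card_biUnion_le.trans ?_
    refine (Finset.sum_le_card_nsmul _ _ M fun h _ => hM2 _ (small_cut hWTA hCNA hNMA hgen' (a := a) (by omega)
      (by omega) h fun σ hσ => (mem_filter.1 hσ).2)).trans ?_
    rw [smul_eq_mul]
    exact Nat.mul_le_mul_right _ (card_labels G m l b μ)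
  have h2 : ((range G).biUnion walkset).card ≤ (G + ∑ j ∈ range G, m j * m j) * M := by
    refine Finset.card_biUnion_le.trans ?_
    have h3 : ∀ j ∈ range G, (walkset j).card ≤ (m j * m j) * M := by
      intro j _
      rcases (walkset j).eq_empty_or_nonempty with h0 | ⟨σ₀, hσ₀⟩
      · rw [h0, Finset.card_empty]
        exact Nat.zero_le _
      obtain ⟨_, uy, ry, Ey, hy1, hy2, hy3⟩ := mem_filter.1 hσ₀
      set rel : Fin (m j) × Fin (m j) → Finset (Fin e → Equiv.Perm (Fin n)) := fun v => univ.filter fun σ =>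
        ∃ u u', Good D σ u ∧ Good D σ₀ u' ∧ w0 ≤ sz u ∧ sz u < w0 + a ∧
          b j v.1 * wtp S' T' σ₀ (ex σ₀ u') = b j v.2 * wtp S' T' σ (ex σ u) with hrel
      have h4 : walkset j ⊆ univ.biUnion rel := by
        intro σ hσ
        obtain ⟨_, u, r, E, hx1, hx2, hx3⟩ := mem_filter.1 hσ
        obtain ⟨v, _, v', _, A, hA, h5, h6, h7⟩ := traverse hWm hx3 hy3 (w0 := w0) (by omega) (by omega)
        have hg : Good D σ (∑ z ∈ A, E z) := hx1.mono (hx3.2.2.2.2.2 ▸ sum_le_of_subset hA E)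
        have hg' : Good D σ₀ (∑ z ∈ A, Ey z) := hy1.mono (hy3.2.2.2.2.2 ▸ sum_le_of_subset hA Ey)
        rw [hwt σ _ hg, hwt σ₀ _ hg'] at h7
        exact mem_biUnion.2 ⟨(v, v'), mem_univ _, mem_filter.2 ⟨mem_univ _, _, _, hg, hg', h5, h6, h7⟩⟩
      refine (Finset.card_le_card h4).trans (Finset.card_biUnion_le.trans ?_)
      refine (Finset.sum_le_card_nsmul _ _ M fun v _ => hM2 _ (small_rel hWTB hCNA hCNB hNMB hn he hgen' (a := a)
        (w0 := w0) (by omega) (by omega) (by omega) (by omega) σ₀ (b j v.1) (b j v.2)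
        fun σ hσ => (mem_filter.1 hσ).2)).trans ?_
      rw [Finset.card_univ, Fintype.card_prod, smul_eq_mul, Fintype.card_fin]
    refine (Finset.sum_le_sum h3).trans ?_
    rw [← Finset.sum_mul]
    exact Nat.mul_le_mul_right _ (Nat.le_add_left _ _)
  have h3 : q ≤ 2 * R * s ^ 2 * M := by
    refine hR.trans ?_
    calc R * (univ.filter fun σ : Fin e → Equiv.Perm (Fin n) => ∃ u, MvPolynomial.coeff u f ≠ 0 ∧
          u.support = univ.image (cell σ) ∧ ∀ β, u β ≤ D).card ≤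
        R * ((G + ∑ j ∈ range G, m j * m j) * M + (G + ∑ j ∈ range G, m j * m j) * M) :=
          Nat.mul_le_mul_left _ ((Finset.card_le_card hcover).trans ((Finset.card_union_le _ _).trans
            (Nat.add_le_add h1 h2)))
      _ = 2 * R * (G + ∑ j ∈ range G, m j * m j) * M := by ring
      _ ≤ 2 * R * s ^ 2 * M := Nat.mul_le_mul_right _ (Nat.mul_le_mul_left _ (sum_sq2 G m))
  have hqpos : 0 < q := pow_pos (Nat.factorial_pos n) _
  have hqpos : 0 < q ^ 20 := pow_pos hqpos 20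
  refine Nat.le_of_mul_le_mul_left ?_ hqpos
  calc q ^ 20 * 2 ^ (e * n) ≤ (2 * R * s ^ 2 * M) ^ 20 * 2 ^ (e * n) :=
        Nat.mul_le_mul_right _ (Nat.pow_le_pow_left h3 20)
    _ = (2 * R * s ^ 2) ^ 20 * (M ^ 20 * 2 ^ (e * n)) := by ring
    _ ≤ (2 * R * s ^ 2) ^ 20 * q ^ 20 := Nat.mul_le_mul_left _ hM1
    _ = q ^ 20 * (2 * R * s ^ 2) ^ 20 := mul_comm _ _

end

end Pool.Agent.Helper1x.EM
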