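import Pool.Agent.Helper1x.EM.Def2

/-!
# Piece BLD of project EM: degrees of the substituted polynomial
-/

set_option autoImplicit false

namespace Pool.Agent.Helper1x.EM

open Finset Pool.Agent.Helper1x.EC MvPolynomial

theorem bld_sVal {K : Type} [Field K] {n e k : ℕ} (ι : Fin k ↪ Fin n) (x : V n e) (y : V k e) :
    (sVal ι x : MvPolynomial (V k e) K).degreeOf y ≤ if sEmb ι y = x then 1 else 0 := by
  classical
  rcases sVal_cases (K := K) ι x with ⟨z, rfl⟩ | ⟨h2, h3⟩ | h2
  · rw [sVal_emb, degreeOf_X]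
    by_cases h : y = z
    · rw [if_pos h, if_pos (by rw [h])]
    · rw [if_neg h]
      exact Nat.zero_le _
  · rw [sVal_one ι h2 h3, degreeOf_one]
    exact Nat.zero_le _
  · rw [h2, degreeOf_zero]
    exact Nat.zero_le _

theorem bld_mono {K : Type} [Field K] {n e k : ℕ} (ι : Fin k ↪ Fin n) (m : V n e →₀ ℕ) (c : K)
    (y : V k e) : (sHom ι (monomial m c) : MvPolynomial (V k e) K).degreeOf y ≤ m (sEmb ι y) := by
  classical
  rw [sHom, aeval_monomial, algebraMap_eq]
  refine (degreeOf_C_mul_le _ _ _).trans ?_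
  rw [Finsupp.prod]
  refine (degreeOf_prod_le _ _ _).trans ?_
  have h : ∀ x ∈ m.support, ((sVal ι x : MvPolynomial (V k e) K) ^ m x).degreeOf y ≤
      if sEmb ι y = x then m x else 0 := by
    intro x _
    refine (degreeOf_pow_le _ _ _).trans ?_
    have h1 := bld_sVal (K := K) ι x y
    by_cases h2 : sEmb ι y = x
    · rw [if_pos h2] at h1
      rw [if_pos h2]
      exact (Nat.mul_le_mul_left _ h1).trans (mul_one _).le
    · rw [if_neg h2] at h1
      rw [if_neg h2]
      exact (Nat.mul_le_mul_left _ h1).trans (mul_zero _).le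
  refine (Finset.sum_le_sum h).trans ?_
  rw [Finset.sum_ite_eq]
  split_ifs
  · exact le_refl _
  · exact Nat.zero_le _

theorem t_BLD : S_BLD := by
  classical
  intro K _ n e k D ι f hf y
  conv_lhs => rw [f.as_sum, map_sum]
  refine (degreeOf_sum_le _ _ _).trans ?_
  refine Finset.sup_le fun m hm => ?_
  exact (bld_mono ι m _ y).trans ((monomial_le_degreeOf _ hm).trans (hf _))

end Pool.Agent.Helper1x.EM
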