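import Pool.Agent.Helper1x.EM.Blv

/-!
# Piece BLM of project EM: the perfect matchings of the extended hypergraph
-/

set_option autoImplicit false

namespace Pool.Agent.Helper1x.EM

open Finset Pool.Agent.Helper1x.EC

namespace BLM

variable {n e k : ℕ} (ι : Fin k ↪ Fin n) (Y : Finset (Fin k × (Fin e → Fin k)))

theorem cell_emb (τ : Fin e → Equiv.Perm (Fin k)) (a : Fin k) :
    ((ι a, fun s => sPsi ι τ s (ι a)) : V n e) = sEmb ι (a, fun s => τ s a) := by
  refine Prod.ext rfl ?_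
  funext s
  exact Equiv.Perm.viaEmbedding_apply _ _ _

theorem mem_cells {m : ℕ} {σ : Fin e → Equiv.Perm (Fin m)} {X : Finset (Fin m × (Fin e → Fin m))} :
    cells σ ⊆ X ↔ ∀ i, (i, fun s => σ s i) ∈ X := by
  unfold cells
  rw [Finset.image_subset_iff]
  exact ⟨fun h i => h i (mem_univ _), fun h i _ => h i⟩

theorem sub_iff (τ : Fin e → Equiv.Perm (Fin k)) : cells (sPsi ι τ) ⊆ extY ι Y ↔ cells τ ⊆ Y := by
  rw [mem_cells, mem_cells]
  constructor
  · intro h a
    have h1 := h (ι a)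
    rw [cell_emb, BLV.mem_emb] at h1
    exact h1
  · intro h i
    by_cases hi : i ∈ Set.range ι
    · obtain ⟨a, rfl⟩ := hi
      rw [cell_emb, BLV.mem_emb]
      exact h a
    · rw [BLV.mem_out (x := (i, fun s => sPsi ι τ s i)) ι Y hi]
      intro s
      exact Equiv.Perm.viaEmbedding_apply_of_notMem _ _ _ hi

theorem range_of {σ : Fin e → Equiv.Perm (Fin n)} (h : cells σ ⊆ extY ι Y) :
    σ ∈ Set.range (sPsi (e := e) ι) := by
  by_contra hσ
  have h0 := sVal_prod_zero (K := ℚ) ι hσ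
  rw [Finset.prod_eq_zero_iff] at h0
  obtain ⟨i, -, hi⟩ := h0
  rcases BLV.mem_cases ι Y (mem_cells.1 h i) with ⟨y, hy⟩ | ⟨h1, h2⟩
  · rw [← hy, sVal_emb] at hi
    exact MvPolynomial.X_ne_zero _ hi
  · rw [sVal_one ι h1 h2] at hi
    exact one_ne_zero hi

end BLM

theorem t_BLM : S_BLM := by
  classical
  intro n e k ι Y
  have h : (univ.filter fun σ : Fin e → Equiv.Perm (Fin n) => cells σ ⊆ extY ι Y) =
      (univ.filter fun τ : Fin e → Equiv.Perm (Fin k) => cells τ ⊆ Y).image (sPsi ι) := by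
    ext σ
    rw [mem_filter, mem_image]
    constructor
    · rintro ⟨-, h⟩
      obtain ⟨τ, rfl⟩ := BLM.range_of ι Y h
      exact ⟨τ, mem_filter.2 ⟨mem_univ _, (BLM.sub_iff ι Y τ).1 h⟩, rfl⟩
    · rintro ⟨τ, hτ, rfl⟩
      exact ⟨mem_univ _, (BLM.sub_iff ι Y τ).2 (mem_filter.1 hτ).2⟩
  rw [h, Finset.card_image_of_injective _ (sPsi_inj ι)]

end Pool.Agent.Helper1x.EM
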