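import Pool.Agent.Helper1x.EM.Def2

/-!
# Piece BLV of project EM: values after restriction to a block
-/

set_option autoImplicit false

namespace Pool.Agent.Helper1x.EM

open Finset Pool.Agent.Helper1x.EC

namespace BLV

variable {n e k : ℕ} (ι : Fin k ↪ Fin n) (Y : Finset (Fin k × (Fin e → Fin k)))

theorem mem_emb (y : V k e) : sEmb ι y ∈ extY ι Y ↔ y ∈ Y := by
  classical
  unfold extY
  rw [mem_union, mem_image, mem_filter]
  constructor
  · rintro (⟨y', hy', h⟩ | ⟨-, h, -⟩)
    · rw [← sEmb_inj ι h]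
      exact hy'
    · exact absurd ⟨y.1, rfl⟩ h
  · intro h
    exact Or.inl ⟨y, h, rfl⟩

theorem mem_out {x : V n e} (hx : x.1 ∉ Set.range ι) : x ∈ extY ι Y ↔ ∀ s, x.2 s = x.1 := by
  classical
  unfold extY
  rw [mem_union, mem_image, mem_filter]
  constructor
  · rintro (⟨y', hy', h⟩ | ⟨-, -, h⟩)
    · exact absurd ⟨y'.1, congrArg Prod.fst h⟩ hx
    · exact h
  · intro h
    exact Or.inr ⟨mem_univ _, hx, h⟩

theorem mem_cases {x : V n e} (h : x ∈ extY ι Y) :
    (∃ y : V k e, sEmb ι y = x) ∨ (x.1 ∉ Set.range ι ∧ ∀ s, x.2 s = x.1) := by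
  classical
  unfold extY at h
  rw [mem_union, mem_image, mem_filter] at h
  rcases h with ⟨y', -, h⟩ | ⟨-, h⟩
  · exact Or.inl ⟨y', h⟩
  · exact Or.inr h

open Classical in
theorem eval_sVal (K : Type) [Field K] (x : V n e) :
    MvPolynomial.eval (fun y => if y ∈ Y then (1 : K) else 0) (sVal ι x) =
      if x ∈ extY ι Y then (1 : K) else 0 := by
  by_cases h : ∃ y : V k e, sEmb ι y = x
  · obtain ⟨y, rfl⟩ := h
    rw [sVal_emb, MvPolynomial.eval_X]
    by_cases hy : y ∈ Y
    · rw [if_pos hy, if_pos ((mem_emb ι Y y).2 hy)]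
    · rw [if_neg hy, if_neg (fun h => hy ((mem_emb ι Y y).1 h))]
  by_cases h' : x.1 ∉ Set.range ι ∧ ∀ s, x.2 s = x.1
  · rw [sVal_one ι h'.1 h'.2, map_one, if_pos ((mem_out ι Y h'.1).2 h'.2)]
  · rw [sVal_zero ι h h', map_zero, if_neg]
    intro h2
    rcases mem_cases ι Y h2 with h3 | h3
    · exact h h3
    · exact h' h3

end BLV

theorem t_BLV : S_BLV := by
  classical
  intro K _ n e k ι f Y
  induction f using MvPolynomial.induction_on with
  | C a => rw [sHom_C, MvPolynomial.eval_C, MvPolynomial.eval_C]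
  | add p q hp hq => rw [map_add, map_add, map_add, hp, hq]
  | mul_X p x hp =>
    rw [map_mul, map_mul, map_mul, hp, sHom_X, MvPolynomial.eval_X]
    congr 1
    have h := BLV.eval_sVal ι Y K x
    convert h

end Pool.Agent.Helper1x.EM
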