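import Pool.Agent.Helper1x.EM.Def

/-! Project EM, piece CNA. -/

set_option autoImplicit false

namespace Pool.Agent.Helper1x.EM

open Finset

namespace CNA

theorem one (n : ℕ) (B C : Finset (Fin n)) :
    (univ.filter fun σ : Equiv.Perm (Fin n) => B.image σ = C).card ≤
      B.card.factorial * (n - B.card).factorial := by
  classical
  by_cases h : ∃ σ₀ : Equiv.Perm (Fin n), B.image σ₀ = C
  swap
  · have : (univ.filter fun σ : Equiv.Perm (Fin n) => B.image σ = C) = ∅ := by
      apply Finset.filter_eq_empty_iff.2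
      intro σ _ hσ
      exact h ⟨σ, hσ⟩
    rw [this, Finset.card_empty]
    exact Nat.zero_le _
  obtain ⟨σ₀, h0⟩ := h
  let f : Equiv.Perm (Fin n) → Equiv.Perm {x // x ∈ B} × Equiv.Perm {x // x ∉ B} := fun σ =>
    if h : ∀ x, (σ₀⁻¹ * σ) x ∈ B ↔ x ∈ B then
      (Equiv.Perm.subtypePerm (σ₀⁻¹ * σ) h, Equiv.Perm.subtypePerm (σ₀⁻¹ * σ) (fun x => not_congr (h x)))
    else 1
  have hmem : ∀ σ : Equiv.Perm (Fin n), B.image σ = C → ∀ x, (σ₀⁻¹ * σ) x ∈ B ↔ x ∈ B := by
    intro σ hσ x
    rw [Equiv.Perm.mul_apply]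
    constructor
    · intro hx
      have h1 : σ x ∈ C := by
        rw [← h0]
        refine Finset.mem_image.2 ⟨_, hx, ?_⟩
        exact σ₀.apply_symm_apply _
      rw [← hσ] at h1
      obtain ⟨y, hy, e⟩ := Finset.mem_image.1 h1
      rw [← σ.injective e]
      exact hy
    · intro hx
      have h1 : σ x ∈ C := by
        rw [← hσ]
        exact Finset.mem_image_of_mem _ hx
      rw [← h0] at h1
      obtain ⟨y, hy, e⟩ := Finset.mem_image.1 h1
      rw [← e]
      have : σ₀⁻¹ (σ₀ y) = y := σ₀.symm_apply_apply _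
      rw [this]
      exact hy
  have hc : Fintype.card (Equiv.Perm {x // x ∈ B} × Equiv.Perm {x // x ∉ B}) =
      B.card.factorial * (n - B.card).factorial := by
    rw [Fintype.card_prod, Fintype.card_perm, Fintype.card_perm]
    congr 2
    · simp
    · rw [Fintype.card_subtype_compl]
      simp
  rw [← hc, ← Finset.card_univ]
  apply Finset.card_le_card_of_injOn f (fun _ _ => Finset.mem_univ _)
  intro σ hσ σ' hσ' e
  rw [Finset.mem_coe, Finset.mem_filter] at hσ hσ'
  have h1 := hmem σ hσ.2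
  have h2 := hmem σ' hσ'.2
  simp only [f] at e
  rw [dif_pos h1, dif_pos h2] at e
  have e1 := (Prod.mk.inj e).1
  have e2 := (Prod.mk.inj e).2
  have h3 : σ₀⁻¹ * σ = σ₀⁻¹ * σ' := by
    ext x
    by_cases hx : x ∈ B
    · have := congrArg (fun (g : Equiv.Perm {x // x ∈ B}) => (g ⟨x, hx⟩ : Fin n)) e1
      simpa using congrArg Fin.val this
    · have := congrArg (fun (g : Equiv.Perm {x // x ∉ B}) => (g ⟨x, hx⟩ : Fin n)) e2
      simpa using congrArg Fin.val this
  exact mul_left_cancel h3

end CNA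

theorem t_CNA : S_CNA := by
  intro n e B C
  classical
  have h : (univ.filter fun σ : Fin e → Equiv.Perm (Fin n) => ∀ s, B.image (σ s) = C s) =
      Fintype.piFinset (fun s => univ.filter fun σ : Equiv.Perm (Fin n) => B.image σ = C s) := by
    ext σ
    simp [Fintype.mem_piFinset]
  rw [h, Fintype.card_piFinset]
  calc ∏ s, (univ.filter fun σ : Equiv.Perm (Fin n) => B.image σ = C s).card
      ≤ ∏ _s : Fin e, (B.card.factorial * (n - B.card).factorial) :=
        Finset.prod_le_prod (fun _ _ => Nat.zero_le _) (fun s _ => CNA.one n B (C s))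
    _ = _ := by simp

end Pool.Agent.Helper1x.EM
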