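import Pool.Agent.Helper1x.EM.Def

/-! Project EM, piece CNB. -/

set_option autoImplicit false

namespace Pool.Agent.Helper1x.EM

open Finset

theorem t_CNB : S_CNB := by
  intro hA n e w0 w1 σ₀ g X hX
  classical
  let C : Finset (Fin n) → (Fin n → Option (Fin e)) → Fin e → Finset (Fin n) := fun B τ s =>
    univ.filter fun j => if (σ₀ s)⁻¹ j ∈ B then
      ¬ (∃ s', τ ((σ₀ s)⁻¹ j) = some s' ∧ g s j = g s' (σ₀ s' ((σ₀ s)⁻¹ j))) else g s j ≠ 0
  let Y : Finset (Fin n) → (Fin n → Option (Fin e)) → Finset (Fin e → Equiv.Perm (Fin n)) := fun B τ =>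
    univ.filter fun σ : Fin e → Equiv.Perm (Fin n) => ∀ s, B.image (σ s) = C B τ s
  let T : Finset (Fin n) → Finset (Fin n → Option (Fin e)) := fun B =>
    Fintype.piFinset (fun i => if i ∈ B then univ else {none})
  have hT : ∀ B, (T B).card = (e + 1) ^ B.card := by
    intro B
    simp only [T]
    rw [Fintype.card_piFinset]
    have : ∀ i : Fin n, (if i ∈ B then (univ : Finset (Option (Fin e))) else {none}).card =
        if i ∈ B then (e + 1) else 1 := by
      intro i
      split_ifs <;> simp
    rw [Finset.prod_congr rfl fun i _ => this i, Finset.prod_ite, Finset.prod_const, Finset.prod_const,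
      one_pow, mul_one]
    congr 1
    simp
  have hcov : X ⊆ (Finset.Ico w0 w1).biUnion fun w => ((univ : Finset (Fin n)).powersetCard w).biUnion
      fun B => (T B).biUnion fun τ => Y B τ := by
    intro σ hσ
    obtain ⟨P, hP0, hP1, hP⟩ := hX σ hσ
    let B : Finset (Fin n) := univ.filter fun i => P i ≠ 0
    let τ : Fin n → Option (Fin e) := fun i => if h : i ∈ B ∧ ∃ s, (P i : ℤ) + g s (σ₀ s i) = 0 then
      some h.2.choose else none
    rw [Finset.mem_biUnion]
    refine ⟨B.card, Finset.mem_Ico.2 ⟨hP0, hP1⟩, ?_⟩
    rw [Finset.mem_biUnion]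
    refine ⟨B, Finset.mem_powersetCard.2 ⟨Finset.subset_univ _, rfl⟩, ?_⟩
    rw [Finset.mem_biUnion]
    refine ⟨τ, ?_, ?_⟩
    · simp only [T]
      rw [Fintype.mem_piFinset]
      intro i
      by_cases hi : i ∈ B
      · rw [if_pos hi]; exact Finset.mem_univ _
      · rw [if_neg hi, Finset.mem_singleton]
        simp only [τ]
        rw [dif_neg (fun h => hi h.1)]
    · simp only [Y]
      rw [Finset.mem_filter]
      refine ⟨Finset.mem_univ _, fun s => ?_⟩
      ext j
      have h1 : j ∈ B.image (σ s) ↔ P ((σ s)⁻¹ j) ≠ 0 := by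
        rw [Finset.mem_image]
        constructor
        · rintro ⟨i, hi, rfl⟩
          have : (σ s)⁻¹ (σ s i) = i := (σ s).symm_apply_apply _
          rw [this]
          exact (Finset.mem_filter.1 hi).2
        · intro h
          exact ⟨(σ s)⁻¹ j, Finset.mem_filter.2 ⟨Finset.mem_univ _, h⟩, (σ s).apply_symm_apply _⟩
      rw [h1]
      simp only [C]
      rw [Finset.mem_filter]
      have h2 := hP s j
      have h3 : P ((σ s)⁻¹ j) ≠ 0 ↔ (P ((σ₀ s)⁻¹ j) : ℤ) + g s j ≠ 0 := by
        rw [← h2]
        constructor
        · intro h h'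
          apply h
          have : (P ((σ s)⁻¹ j) : ℤ) = 0 := by linarith
          exact_mod_cast this
        · intro h h'
          apply h
          rw [h']
          push_cast
          ring
      rw [h3]
      have h4 : ∀ s', σ₀ s' ((σ₀ s')⁻¹ j) = j := fun s' => (σ₀ s').apply_symm_apply _
      generalize hi : (σ₀ s)⁻¹ j = i
      have hj : σ₀ s i = j := by rw [← hi]; exact h4 s
      by_cases hiB : i ∈ B
      · rw [if_pos hiB]
        have h5 : (P i : ℤ) + g s j = 0 ↔ ∃ s', τ i = some s' ∧ g s j = g s' (σ₀ s' i) := by
          constructor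
          · intro h
            have hex : i ∈ B ∧ ∃ s, (P i : ℤ) + g s (σ₀ s i) = 0 := ⟨hiB, s, by rw [hj]; exact h⟩
            refine ⟨hex.2.choose, ?_, ?_⟩
            · simp only [τ]
              rw [dif_pos hex]
            · have := hex.2.choose_spec
              linarith
          · rintro ⟨s', hs', e'⟩
            simp only [τ] at hs'
            split_ifs at hs' with hex
            have h6 := Option.some.inj hs'
            have := hex.2.choose_spec
            rw [h6] at this
            rw [e']
            exact this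
        simp only [Finset.mem_univ, true_and]
        exact not_congr h5
      · rw [if_neg hiB]
        have : P i = 0 := by
          by_contra h
          exact hiB (Finset.mem_filter.2 ⟨Finset.mem_univ _, h⟩)
        rw [this]
        simp
  refine (Finset.card_le_card hcov).trans (Finset.card_biUnion_le.trans ?_)
  apply Finset.sum_le_sum
  intro w _
  refine Finset.card_biUnion_le.trans ?_
  have hB : ∀ B ∈ (univ : Finset (Fin n)).powersetCard w, ((T B).biUnion fun τ => Y B τ).card ≤
      (e + 1) ^ w * (w.factorial * (n - w).factorial) ^ e := by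
    intro B hB
    have hw : B.card = w := (Finset.mem_powersetCard.1 hB).2
    refine Finset.card_biUnion_le.trans ?_
    calc ∑ τ ∈ T B, (Y B τ).card ≤ ∑ _τ ∈ T B, (w.factorial * (n - w).factorial) ^ e := by
          apply Finset.sum_le_sum
          intro τ _
          have := hA n e B (C B τ)
          rw [hw] at this
          exact this
      _ = _ := by rw [Finset.sum_const, hT, hw, smul_eq_mul]
  refine (Finset.sum_le_sum hB).trans ?_
  rw [Finset.sum_const, Finset.card_powersetCard, Finset.card_univ, Fintype.card_fin, smul_eq_mul]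

end Pool.Agent.Helper1x.EM
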