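import Pool.Agent.Helper1x.EM.Def

/-! Project EM, piece DTB. -/

set_option autoImplicit false

namespace Pool.Agent.Helper1x.EM

open Finset

theorem t_DTB : S_DTB := by
  intro K _ _ n
  classical
  let M : Finset (Fin n × Fin n) → Matrix (Fin n) (Fin n) (MvPolynomial (Fin n × Fin n) K) := fun Y =>
    Matrix.of fun u v : Fin n => if (v, u) ∈ Y then MvPolynomial.X (v, u) else 0
  have hev : ∀ (x : Fin n × Fin n → K) (Y : Finset (Fin n × Fin n)),
      MvPolynomial.eval x (M Y).det =
        (Matrix.of fun u v : Fin n => if (v, u) ∈ Y then x (v, u) else 0).det := by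
    intro x Y
    rw [RingHom.map_det]
    congr 1
    ext u v
    simp only [M, RingHom.mapMatrix_apply, Matrix.map_apply, Matrix.of_apply]
    split_ifs <;> simp
  have hne : ∀ Y : Finset (Fin n × Fin n), (∃ π : Equiv.Perm (Fin n), ∀ i, (i, π i) ∈ Y) →
      (M Y).det ≠ 0 := by
    rintro Y ⟨π, hπ⟩ h0
    have h1 := hev (fun p => if p.2 = π p.1 then 1 else 0) Y
    rw [h0, map_zero] at h1
    have h2 : (Matrix.of fun u v : Fin n => if (v, u) ∈ Y then (if u = π v then (1 : K) else 0) else 0) =
        (Equiv.Perm.permMatrix K π).transpose := by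
      ext u v
      simp only [Matrix.of_apply, Matrix.transpose_apply, Equiv.Perm.permMatrix]
      rw [PEquiv.toMatrix_apply]
      simp only [Equiv.toPEquiv_apply, Option.mem_def, Option.some.injEq]
      by_cases hu : u = π v
      · subst hu
        simp [hπ v]
      · have : ¬ π v = u := fun h => hu h.symm
        simp [hu, this]
    rw [h2, Matrix.det_transpose, Matrix.det_permutation] at h1
    rcases Int.units_eq_one_or (Equiv.Perm.sign π) with h | h <;> simp [h] at h1
  have hprod : (∏ Y ∈ (univ : Finset (Finset (Fin n × Fin n))).filter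
      (fun Y => ∃ π : Equiv.Perm (Fin n), ∀ i, (i, π i) ∈ Y), (M Y).det) ≠ 0 := by
    rw [Finset.prod_ne_zero_iff]
    intro Y hY
    exact hne Y (Finset.mem_filter.1 hY).2
  obtain ⟨x, hx⟩ : ∃ x : Fin n × Fin n → K, MvPolynomial.eval x
      (∏ Y ∈ (univ : Finset (Finset (Fin n × Fin n))).filter
      (fun Y => ∃ π : Equiv.Perm (Fin n), ∀ i, (i, π i) ∈ Y), (M Y).det) ≠ 0 := by
    by_contra hcon
    push Not at hcon
    apply hprod
    apply MvPolynomial.funext
    intro x
    rw [hcon x, map_zero]
  refine ⟨fun v u => x (v, u), fun Y => ⟨fun h => ?_, fun h => ?_⟩⟩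
  · rw [Matrix.det_apply] at h
    obtain ⟨σ, -, hσ⟩ := Finset.exists_ne_zero_of_sum_ne_zero h
    refine ⟨σ, fun i => ?_⟩
    by_contra hi
    apply hσ
    rw [Finset.prod_eq_zero (Finset.mem_univ i), smul_zero]
    simp [hi]
  · rw [map_prod, Finset.prod_ne_zero_iff] at hx
    have := hx Y (Finset.mem_filter.2 ⟨Finset.mem_univ _, h⟩)
    rw [hev] at this
    exact this

end Pool.Agent.Helper1x.EM
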