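import Pool.Agent.Helper1x.EM.Gem

/-!
Piece GEI of project EM: `t_GEI` is in the imported file.
-/
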