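import Pool.Agent.Helper1x.EM.Def
import Pool.Agent.Helper1x.EQ.Gen
import Pool.Agent.Helper1x.EB.Geni

/-!
# Project EM (helper1), pieces GEM, GEI (helper99): generic elements
-/

set_option autoImplicit false

namespace Pool.Agent.Helper1x.EM

open Finset

theorem t_GEM : S_GEM := by
  intro K _ _ n e D
  classical
  obtain ⟨t, ht⟩ := Pool.Agent.Helper1x.EQ.exists_generic K (Option (Fin e)) (Fin n) (2 * D)
  refine ⟨t none, fun s => t (some s), ?_⟩
  intro P Q hP hQ h
  have h1 := ht (fun o i => match o with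
    | none => P i
    | some s => Q s i) (by
      intro o i
      cases o with
      | none => simpa using hP i
      | some s => simpa using hQ s i) (by
      rw [Fintype.prod_option]
      exact h)
  have h2 : ∀ i, P i = 0 := fun i => congrFun (congrFun h1 none) i
  have h3 : ∀ s i, Q s i = 0 := fun s i => congrFun (congrFun h1 (some s)) i
  exact ⟨fun i i' => by rw [h2, h2], fun s j j' => by rw [h3, h3]⟩

theorem t_GEI : S_GEI := by
  intro K _ _ n e
  classical
  have hJ : ∃ p : Fin n ⊕ (Fin e × Fin n) → Nat.Primes, Function.Injective p :=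
    ⟨fun j => Infinite.natEmbedding Nat.Primes (Fintype.equivFin _ j),
      fun j j' h => (Fintype.equivFin _).injective (Fin.val_injective
        ((Infinite.natEmbedding Nat.Primes).injective h))⟩
  obtain ⟨p, hp⟩ := hJ
  set U : Fin n ⊕ (Fin e × Fin n) → Kˣ := fun j =>
    Units.mk0 ((p j : ℕ) : K) (Nat.cast_ne_zero.2 (p j).2.ne_zero) with hU
  refine ⟨fun i => U (Sum.inl i), fun s j => U (Sum.inr (s, j)), fun D P Q _ _ h => ?_⟩
  have h1 := Pool.Agent.Helper1x.EB.Geni.indep p hp U (fun j => rfl)
    (Sum.elim P (fun x => Q x.1 x.2)) (by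
      rw [Fintype.prod_sum_type, Fintype.prod_prod_type]
      exact h)
  have h2 : ∀ i, P i = 0 := fun i => h1 (Sum.inl i)
  have h3 : ∀ s i, Q s i = 0 := fun s i => h1 (Sum.inr (s, i))
  exact ⟨fun i i' => by rw [h2, h2], fun s j j' => by rw [h3, h3]⟩

end Pool.Agent.Helper1x.EM
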