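import Pool.Agent.Helper1x.EM.Def

/-!
# Project EM (helper1), piece NMA (helper99): numbers for the cuts
-/

set_option autoImplicit false

namespace Pool.Agent.Helper1x.EM

namespace NMA

theorem pow_le_choose (k : ℕ) (hk : 1 ≤ k) (a : ℕ) : ∀ n : ℕ, k * a ≤ n → k ^ a ≤ n.choose a := by
  induction a with
  | zero => intro n _; simp
  | succ a ih =>
    intro n hn
    obtain ⟨m, rfl⟩ : ∃ m, n = m + 1 := ⟨n - 1, by
      have : 0 < k * (a + 1) := by positivity
      omega⟩
    have h1 : k * a ≤ m := by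
      rw [mul_add, mul_one] at hn
      omega
    have h2 := ih m h1
    have h3 := Nat.add_one_mul_choose_eq m a
    have h4 : k ^ (a + 1) * (a + 1) ≤ (m + 1).choose (a + 1) * (a + 1) := by
      rw [← h3]
      calc k ^ (a + 1) * (a + 1) = (k * (a + 1)) * k ^ a := by ring
        _ ≤ (m + 1) * m.choose a := Nat.mul_le_mul hn h2
    exact Nat.le_of_mul_le_mul_right h4 (Nat.succ_pos a)

theorem choose_mono_half {n a w : ℕ} (haw : a ≤ w) (hw : w ≤ n / 2) : n.choose a ≤ n.choose w := by
  induction w, haw using Nat.le_induction with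
  | base => exact le_rfl
  | succ w _ ih =>
    exact (ih (by omega)).trans (Nat.choose_le_succ_of_lt_half_left (by omega))

theorem choose_mono {n a w : ℕ} (haw : a ≤ w) (hw : w + a ≤ n) : n.choose a ≤ n.choose w := by
  by_cases h : w ≤ n / 2
  · exact choose_mono_half haw h
  · rw [← Nat.choose_symm (by omega : w ≤ n)]
    exact choose_mono_half (by omega) (by omega)

end NMA

open NMA in
theorem t_NMA : S_NMA := by
  intro n e a w h1 h2 h3 h4
  have hw : w ≤ n := by omega
  have h5 := Nat.choose_mul_factorial_mul_factorial hw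
  have h6 : 20 ^ a ≤ n.choose w := (pow_le_choose 20 (by norm_num) a n h2).trans (choose_mono h3 h4)
  have h7 : 2 ^ n ≤ (n.choose w) ^ 20 := by
    calc 2 ^ n ≤ 2 ^ (40 * a) := Nat.pow_le_pow_right (by norm_num) h1
      _ = (4 ^ a) ^ 20 := by
          rw [← pow_mul, (by norm_num : (4 : ℕ) = 2 ^ 2), ← pow_mul]
          congr 1; ring
      _ ≤ (20 ^ a) ^ 20 := Nat.pow_le_pow_left (Nat.pow_le_pow_left (by norm_num) a) 20
      _ ≤ (n.choose w) ^ 20 := Nat.pow_le_pow_left h6 20
  rw [mul_assoc] at h5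
  generalize w.factorial * (n - w).factorial = b at h5 ⊢
  have h8 : n.factorial = b * n.choose w := by rw [← h5, mul_comm]
  calc (b ^ e) ^ 20 * 2 ^ (e * n) = (b ^ 20 * 2 ^ n) ^ e := by
        rw [mul_pow, ← pow_mul, ← pow_mul, ← pow_mul, mul_comm e 20, mul_comm e n]
    _ ≤ (b ^ 20 * (n.choose w) ^ 20) ^ e := Nat.pow_le_pow_left (Nat.mul_le_mul_left _ h7) e
    _ = (n.factorial ^ e) ^ 20 := by
        rw [← mul_pow, ← h8, ← pow_mul, ← pow_mul, mul_comm 20 e]

end Pool.Agent.Helper1x.EM
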