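import Pool.Agent.Helper1x.EM.Def

/-!
# Piece NMB of project EM: numbers for the relative cuts
-/

set_option autoImplicit false

namespace Pool.Agent.Helper1x.EM

open Finset

namespace NMB

theorem choose_low (w : ℕ) : ∀ n : ℕ, 7 * w ≤ n → 7 ^ w ≤ n.choose w := by
  induction w with
  | zero => intro n _; simp
  | succ w ih =>
    intro n hn
    obtain ⟨m, rfl⟩ : ∃ m, n = m + 1 := ⟨n - 1, by omega⟩
    have h1 := ih m (by omega)
    have h2 := Nat.add_one_mul_choose_eq m w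
    have h3 : 7 * (w + 1) * 7 ^ w ≤ (m + 1) * m.choose w := Nat.mul_le_mul hn h1
    rw [h2] at h3
    have h4 : 7 ^ (w + 1) * (w + 1) ≤ (m + 1).choose (w + 1) * (w + 1) := by
      calc 7 ^ (w + 1) * (w + 1) = 7 * (w + 1) * 7 ^ w := by ring
        _ ≤ _ := h3
    exact Nat.le_of_mul_le_mul_right h4 (Nat.succ_pos _)

theorem b_low (w : ℕ) (hw : 40 ≤ w) : (w + 4) ^ 10 ≤ 4 ^ 10 * 2 ^ w := by
  induction w, hw using Nat.le_induction with
  | base => norm_num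
  | succ w hw ih =>
    have h1 : 44 * (w + 1 + 4) ≤ 45 * (w + 4) := by omega
    have h2 := Nat.pow_le_pow_left h1 10
    rw [mul_pow, mul_pow] at h2
    have h3 : 45 ^ 10 ≤ 2 * 44 ^ 10 := by norm_num
    have h4 : 44 ^ 10 * (w + 1 + 4) ^ 10 ≤ 44 ^ 10 * (4 ^ 10 * 2 ^ (w + 1)) := by
      calc 44 ^ 10 * (w + 1 + 4) ^ 10 ≤ 45 ^ 10 * (w + 4) ^ 10 := h2
        _ ≤ 2 * 44 ^ 10 * (w + 4) ^ 10 := Nat.mul_le_mul_right _ h3
        _ ≤ 2 * 44 ^ 10 * (4 ^ 10 * 2 ^ w) := Nat.mul_le_mul_left _ ih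
        _ = 44 ^ 10 * (4 ^ 10 * 2 ^ (w + 1)) := by rw [pow_succ 2 w]; ring
    exact Nat.le_of_mul_le_mul_left h4 (by norm_num)

theorem step_abs (a b c p q r x y : ℕ) (ha : 0 < a) (h2 : a * y ≤ b * x)
    (h3 : p * b ≤ a * c) (ih : 4 * q * x ≤ r) : 4 * (p * q) * y ≤ c * r := by
  have h4 : a * (4 * (p * q) * y) ≤ a * (c * r) := by
    calc a * (4 * (p * q) * y) = 4 * p * q * (a * y) := by ring
      _ ≤ 4 * p * q * (b * x) := Nat.mul_le_mul_left _ h2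
      _ = (p * b) * (4 * q * x) := by ring
      _ ≤ (a * c) * r := Nat.mul_le_mul h3 ih
      _ = a * (c * r) := by ring
  exact Nat.le_of_mul_le_mul_left h4 ha

theorem h3_num : (2 ^ 10 * 4 ^ 20 : ℕ) ≤ 3 ^ 20 * 7 ^ 20 := by norm_num

theorem e_gen (A B C P : ℕ) (hA : A = 3 ^ 20) (hB : B = 4 ^ 20) (hC : C = 7 ^ 20) (hP : P = 2 ^ 10)
    (k : ℕ) : 4 * P ^ (k + 2) * (k + 3) ^ 20 ≤ C ^ (k + 1) := by
  induction k with
  | zero => subst hA hB hC hP; norm_num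
  | succ k ih =>
    have h1 : 3 * (k + 1 + 3) ≤ 4 * (k + 3) := by omega
    have h2 : A * (k + 1 + 3) ^ 20 ≤ B * (k + 3) ^ 20 := by
      have := Nat.pow_le_pow_left h1 20
      rw [mul_pow, mul_pow, ← hA, ← hB] at this
      exact this
    have h3 : P * B ≤ A * C := by
      rw [hA, hB, hC, hP]; exact h3_num
    have hA0 : 0 < A := by rw [hA]; exact pow_pos (by norm_num) 20
    have e1 : P ^ (k + 1 + 2) = P * P ^ (k + 2) := by
      rw [show k + 1 + 2 = (k + 2) + 1 by ring, pow_succ, mul_comm]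
    have e2 : C ^ (k + 1 + 1) = C * C ^ (k + 1) := by
      rw [pow_succ C (k + 1), mul_comm]
    rw [e1, e2]
    exact step_abs A B C P _ _ _ _ hA0 h2 h3 ih

theorem e_low (k : ℕ) : 4 * 2 ^ (10 * (k + 2)) * (k + 3) ^ 20 ≤ 7 ^ (20 * (k + 1)) := by
  have := e_gen _ _ _ _ rfl rfl rfl rfl k
  rw [pow_mul 2 10 (k + 2), pow_mul 7 20 (k + 1)]
  exact this

end NMB

open NMB in
theorem t_NMB : S_NMB := by
  intro n e b w hn he hnw hwn hb
  obtain ⟨k, rfl⟩ : ∃ k, e = k + 2 := ⟨e - 2, by omega⟩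
  have hw : 40 ≤ w := by omega
  have hC := choose_low w n hwn
  have hfac : n.choose w * w.factorial * (n - w).factorial = n.factorial :=
    Nat.choose_mul_factorial_mul_factorial (by omega)
  generalize hCd : n.choose w = Cn at *
  have hb10 : b ^ 10 ≤ 2 ^ w := by
    have h1 := Nat.pow_le_pow_left hb 10
    rw [mul_pow] at h1
    exact Nat.le_of_mul_le_mul_left (h1.trans (b_low w hw)) (by norm_num)
  have hb20 : b ^ 20 ≤ 4 ^ w := by
    calc b ^ 20 = (b ^ 10) ^ 2 := by ring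
      _ ≤ (2 ^ w) ^ 2 := Nat.pow_le_pow_left hb10 2
      _ = 4 ^ w := by rw [← pow_mul, mul_comm w 2, pow_mul]; norm_num
  have key : b ^ 20 * (k + 3) ^ (20 * w) * 2 ^ ((k + 2) * n) ≤ Cn ^ (20 * (k + 1)) := by
    calc b ^ 20 * (k + 3) ^ (20 * w) * 2 ^ ((k + 2) * n) ≤
          4 ^ w * (k + 3) ^ (20 * w) * 2 ^ ((k + 2) * (10 * w)) := by
            refine Nat.mul_le_mul (Nat.mul_le_mul_right _ hb20) ?_
            exact Nat.pow_le_pow_right (by norm_num) (Nat.mul_le_mul_left _ hnw)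
      _ = (4 * 2 ^ (10 * (k + 2)) * (k + 3) ^ 20) ^ w := by
            rw [mul_pow, mul_pow, ← pow_mul, ← pow_mul]
            rw [show (k + 2) * (10 * w) = 10 * (k + 2) * w by ring]
            ring
      _ ≤ (7 ^ (20 * (k + 1))) ^ w := Nat.pow_le_pow_left (e_low k) w
      _ = (7 ^ w) ^ (20 * (k + 1)) := by rw [← pow_mul, ← pow_mul, mul_comm]
      _ ≤ Cn ^ (20 * (k + 1)) := Nat.pow_le_pow_left hC _
  generalize hD : w.factorial * (n - w).factorial = Dn at *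
  have hfac' : n.factorial = Cn * Dn := by rw [← hfac, ← hD, mul_assoc]
  rw [hfac']
  calc (b * (Cn * ((k + 2 + 1) ^ w * Dn ^ (k + 2)))) ^ 20 * 2 ^ ((k + 2) * n) =
        (b ^ 20 * (k + 3) ^ (20 * w) * 2 ^ ((k + 2) * n)) * (Cn ^ 20 * (Dn ^ (k + 2)) ^ 20) := by
          rw [show k + 2 + 1 = k + 3 by ring]
          rw [mul_comm 20 w, pow_mul (k + 3) w 20]
          ring
    _ ≤ Cn ^ (20 * (k + 1)) * (Cn ^ 20 * (Dn ^ (k + 2)) ^ 20) := Nat.mul_le_mul_right _ key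
    _ = ((Cn * Dn) ^ (k + 2)) ^ 20 := by
          rw [mul_pow, mul_pow, ← pow_mul Cn (k + 2) 20, ← mul_assoc, ← pow_add]
          congr 2
          ring

end Pool.Agent.Helper1x.EM
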