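import Pool.Agent.Helper1x.EB.Desc

/-!
# Traversal of the walks at a gate
-/

set_option autoImplicit false

namespace Pool.Agent.Helper1x.EM

open Finset Pool.Agent.Helper1x.EB

section

variable {X H : Type*} [CommGroup H]

/-- the images of `S` under `r` and `r'` differ by one label -/
def Rel {ι : Type} (Z : Finset ι) (r r' : ι → ι) (S : Finset ι) : Prop :=
  ∃ v ∈ Z, ∃ v' ∈ Z, v ::ₘ S.val.map r = v' ::ₘ S.val.map r'

theorem Rel.extend {ι : Type} [DecidableEq ι] {Z : Finset ι} {r r' : ι → ι} (hr1 : ∀ z ∈ Z, r z ∈ Z)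
    (hr2 : ∀ z ∈ Z, ∀ z' ∈ Z, r z = r z' → z = z') (hr1' : ∀ z ∈ Z, r' z ∈ Z)
    (hr2' : ∀ z ∈ Z, ∀ z' ∈ Z, r' z = r' z' → z = z') {S : Finset ι} (hS : S ⊆ Z) (hne : S ≠ Z)
    (h : Rel Z r r' S) : ∃ z ∈ Z, z ∉ S ∧ Rel Z r r' (insert z S) := by
  obtain ⟨v, hv, v', hv', h1⟩ := h
  have hins : ∀ z, z ∉ S → (insert z S).val = z ::ₘ S.val := fun z hz => Finset.insert_val_of_notMem hz
  by_cases hvv : v = v'
  · subst hvv
    obtain ⟨z, hzZ, hz⟩ := Finset.exists_of_ssubset (Finset.ssubset_iff_subset_ne.2 ⟨hS, hne⟩)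
    refine ⟨z, hzZ, hz, r' z, hr1' z hzZ, r z, hr1 z hzZ, ?_⟩
    rw [hins z hz, Multiset.map_cons, Multiset.map_cons, Multiset.cons_swap, (Multiset.cons_inj_right v).1 h1]
  · -- `v'` is not in the image of `S` under `r'`... and `v` is
    have hsurj : ∀ y ∈ Z, ∃ z ∈ Z, r' z = y := by
      intro y hy
      have h2 : Z.image r' = Z := by
        refine Finset.eq_of_subset_of_card_le ?_ ?_
        · intro w hw
          obtain ⟨z, hz, rfl⟩ := mem_image.1 hw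
          exact hr1' z hz
        · rw [Finset.card_image_of_injOn fun z hz z' hz' hzz => hr2' z hz z' hz' hzz]
      rw [← h2] at hy
      exact mem_image.1 hy
    obtain ⟨z, hz, hzv⟩ := hsurj v' hv'
    have hzS : z ∉ S := by
      intro hzS
      have h2 := congrArg (Multiset.count v') h1
      rw [Multiset.count_cons_of_ne (Ne.symm hvv), Multiset.count_cons_self] at h2
      have h3 : 1 ≤ Multiset.count v' (S.val.map r') := by
        rw [Multiset.one_le_count_iff_mem, Multiset.mem_map]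
        exact ⟨z, hzS, hzv⟩
      have h4 : Multiset.count v' (S.val.map r) ≤ 1 := by
        refine Multiset.nodup_iff_count_le_one.1 ?_ v'
        exact Multiset.Nodup.map_on (fun z hz z' hz' hzz => hr2 z (hS hz) z' (hS hz') hzz) S.nodup
      omega
    refine ⟨z, hz, hzS, v, hv, r z, hr1 z hz, ?_⟩
    rw [hins z hzS, Multiset.map_cons, Multiset.map_cons, Multiset.cons_swap, h1, hzv]

theorem rel_weight {ι : Type} {W : (X →₀ ℕ) → H} (hW : Mult W) {a : ℕ} {b μ : ι → H} {Z : Finset ι}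
    {u u' : X →₀ ℕ} {r r' : ι → ι} {D D' : ι → X →₀ ℕ} (hx : Walks W a b μ Z u r D)
    (hy : Walks W a b μ Z u' r' D') {S : Finset ι} (hS : S ⊆ Z) (h : Rel Z r r' S) :
    ∃ v ∈ Z, ∃ v' ∈ Z, b v * W (∑ z ∈ S, D' z) = b v' * W (∑ z ∈ S, D z) := by
  classical
  obtain ⟨v, hv, v', hv', h1⟩ := h
  refine ⟨v, hv, v', hv', ?_⟩
  have h2 := congrArg (fun M => (Multiset.map b M).prod) h1
  simp only [Multiset.map_cons, Multiset.prod_cons, Multiset.map_map] at h2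
  have h3 : (Multiset.map (b ∘ r) S.val).prod = ∏ z ∈ S, b (r z) := rfl
  have h4 : (Multiset.map (b ∘ r') S.val).prod = ∏ z ∈ S, b (r' z) := rfl
  rw [h3, h4] at h2
  have hsum : ∀ E : ι → X →₀ ℕ, W (∑ z ∈ S, E z) = ∏ z ∈ S, W (E z) := fun E => hW.sum S E
  have h5 : (∏ z ∈ S, b (r z)) * ∏ z ∈ S, W (D z) = (∏ z ∈ S, b (r' z)) * ∏ z ∈ S, W (D' z) := by
    rw [← Finset.prod_mul_distrib, ← Finset.prod_mul_distrib]
    refine Finset.prod_congr rfl fun z hz => ?_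
    rw [← hx.2.2.2.1 z (hS hz), ← hy.2.2.2.1 z (hS hz)]
  rw [hsum, hsum]
  have h6 : (∏ z ∈ S, b (r' z)) * (b v * ∏ z ∈ S, W (D' z)) = (∏ z ∈ S, b (r' z)) * (b v' * ∏ z ∈ S, W (D z)) := by
    calc (∏ z ∈ S, b (r' z)) * (b v * ∏ z ∈ S, W (D' z)) = b v * ((∏ z ∈ S, b (r' z)) * ∏ z ∈ S, W (D' z)) := by
          rw [mul_left_comm]
      _ = b v * ((∏ z ∈ S, b (r z)) * ∏ z ∈ S, W (D z)) := by rw [h5]
      _ = (b v * ∏ z ∈ S, b (r z)) * ∏ z ∈ S, W (D z) := by rw [mul_assoc]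
      _ = (b v' * ∏ z ∈ S, b (r' z)) * ∏ z ∈ S, W (D z) := by rw [h2]
      _ = (∏ z ∈ S, b (r' z)) * (b v' * ∏ z ∈ S, W (D z)) := by rw [mul_comm (b v'), mul_assoc]
  exact mul_left_cancel h6

/-- Two systems of walks at the same gate: a set of labels with a relation between the weights and any prescribed size,
up to `a`. -/
theorem traverse {ι : Type} [DecidableEq ι] {W : (X →₀ ℕ) → H} (hW : Mult W) {a : ℕ} {b μ : ι → H} {Z : Finset ι}
    {u u' : X →₀ ℕ} {r r' : ι → ι} {D D' : ι → X →₀ ℕ} (hx : Walks W a b μ Z u r D)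
    (hy : Walks W a b μ Z u' r' D') {w0 : ℕ} (hw0 : 0 < w0) (hw : w0 ≤ sz u) :
    ∃ v ∈ Z, ∃ v' ∈ Z, ∃ S ⊆ Z, w0 ≤ sz (∑ z ∈ S, D z) ∧ sz (∑ z ∈ S, D z) < w0 + a ∧
      b v * W (∑ z ∈ S, D' z) = b v' * W (∑ z ∈ S, D z) := by
  classical
  have hZ : Z.Nonempty := by
    rw [Finset.nonempty_iff_ne_empty]
    intro h0
    have h1 := hx.2.2.2.2.2
    rw [h0, Finset.sum_empty] at h1
    rw [← h1, sz_zero] at hw
    omega
  obtain ⟨v0, hv0⟩ := hZ
  set P := Z.powerset.filter fun S => Rel Z r r' S ∧ sz (∑ z ∈ S, D z) < w0 with hP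
  have hPn : P.Nonempty := by
    refine ⟨∅, mem_filter.2 ⟨Finset.empty_mem_powerset _, ⟨v0, hv0, v0, hv0, rfl⟩, ?_⟩⟩
    rw [Finset.sum_empty, sz_zero]
    exact hw0
  obtain ⟨S, hS, hmax⟩ := Finset.exists_max_image P Finset.card hPn
  obtain ⟨hS1, hS2, hS3⟩ := mem_filter.1 hS
  have hSZ := Finset.mem_powerset.1 hS1
  have hne : S ≠ Z := by
    rintro rfl
    rw [hx.2.2.2.2.2] at hS3
    omega
  obtain ⟨z, hz, hzS, hrel⟩ := hS2.extend hx.1 hx.2.1 hy.1 hy.2.1 hSZ hne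
  have hSZ' : insert z S ⊆ Z := Finset.insert_subset hz hSZ
  obtain ⟨v, hv, v', hv', h1⟩ := rel_weight hW hx hy hSZ' hrel
  refine ⟨v, hv, v', hv', insert z S, hSZ', ?_, ?_, h1⟩
  · by_contra h2
    push Not at h2
    have h3 := hmax _ (mem_filter.2 ⟨Finset.mem_powerset.2 hSZ', hrel, h2⟩)
    rw [Finset.card_insert_of_notMem hzS] at h3
    omega
  · rw [Finset.sum_insert hzS]
    have h4 := sz_add (D z) (∑ z ∈ S, D z)
    have h5 := hx.2.2.2.2.1 z hz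
    omega

end

end Pool.Agent.Helper1x.EM
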