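import Pool.Agent.Helper1x.EM.Def

/-!
# Project EM (helper1), pieces WTA, WTB (helper99): weights
-/

set_option autoImplicit false

namespace Pool.Agent.Helper1x.EM

open Finset

namespace WTA

theorem wtp_eq {n e : ℕ} {H : Type*} [CommGroup H] (S : Fin n → H) (T : Fin e → Fin n → H)
    (σ : Fin e → Equiv.Perm (Fin n)) (P : Fin n → ℕ) :
    wtp S T σ P = (∏ i, S i ^ (P i : ℤ)) * ∏ s, ∏ j, T s j ^ (P ((σ s)⁻¹ j) : ℤ) := by
  unfold wtp
  simp only [mul_pow, Finset.prod_mul_distrib, zpow_natCast]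
  congr 1
  simp only [← Finset.prod_pow]
  rw [Finset.prod_comm]
  refine Finset.prod_congr rfl fun s _ => ?_
  rw [← Equiv.prod_comp (σ s) (fun j => T s j ^ P ((σ s)⁻¹ j))]
  refine Finset.prod_congr rfl fun i _ => ?_
  have h1 : (σ s)⁻¹ ((σ s) i) = i := (σ s).symm_apply_apply i
  rw [h1]

/-- from a relation between exponent vectors -/
theorem key {n e D : ℕ} {H : Type*} [CommGroup H] {S : Fin n → H} {T : Fin e → Fin n → H}
    (hg : Generic D S T) (a : Fin n → ℤ) (b : Fin e → Fin n → ℤ) (ha : ∀ i, |a i| ≤ 2 * D)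
    (hb : ∀ s j, |b s j| ≤ 2 * D) (h : (∏ i, S i ^ a i) * (∏ s, ∏ j, T s j ^ b s j) = 1)
    (hsum : ∀ s, ∑ i, a i = ∑ j, b s j) : ∀ s i j, b s j = a i := by
  obtain ⟨h1, h2⟩ := hg a b ha hb h
  intro s i j
  have h3 := hsum s
  rw [Finset.sum_congr rfl fun i' _ => h1 i' i, Finset.sum_congr rfl fun j' _ => h2 s j' j,
    Finset.sum_const, Finset.sum_const, Finset.card_univ, Fintype.card_fin, nsmul_eq_mul,
    nsmul_eq_mul] at h3
  have hn : (n : ℤ) ≠ 0 := by
    have : 0 < n := Fin.pos i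
    exact_mod_cast this.ne'
  exact (mul_left_cancel₀ hn h3).symm

end WTA

open WTA in
theorem t_WTA : S_WTA := by
  intro H _ n e D S T hg σ σ' P P' hP hP' h s j
  have h1 := key hg (fun i => (P i : ℤ) - P' i) (fun s j => (P ((σ s)⁻¹ j) : ℤ) - P' ((σ' s)⁻¹ j))
    (fun i => by
      have := hP i
      have := hP' i
      rw [abs_le]; constructor <;> omega)
    (fun s j => by
      have := hP ((σ s)⁻¹ j)
      have := hP' ((σ' s)⁻¹ j)
      rw [abs_le]; constructor <;> omega)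
    (by
      simp only [zpow_sub, Finset.prod_mul_distrib, Finset.prod_inv_distrib]
      rw [wtp_eq, wtp_eq] at h
      rw [mul_mul_mul_comm, h, ← mul_inv, mul_inv_cancel])
    (fun s => by
      rw [Finset.sum_sub_distrib, Finset.sum_sub_distrib,
        Equiv.sum_comp (σ s)⁻¹ (fun i => (P i : ℤ)), Equiv.sum_comp (σ' s)⁻¹ (fun i => (P' i : ℤ))])
    s ((σ' s)⁻¹ j) j
  omega

open WTA in
theorem t_WTB : S_WTB := by
  intro H _ n e D S T hg σ₀ σ₁ σ P₁ R₁ P R hP₁ hR₁ hP hR h s j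
  have h1 := key hg (fun i => ((P i : ℤ) + R₁ i) - (P₁ i + R i))
    (fun s j => ((P ((σ s)⁻¹ j) : ℤ) + R₁ ((σ₀ s)⁻¹ j)) - (P₁ ((σ₁ s)⁻¹ j) + R ((σ₀ s)⁻¹ j)))
    (fun i => by
      have := hP i
      have := hR i
      have := hP₁ i
      have := hR₁ i
      rw [abs_le]; constructor <;> omega)
    (fun s j => by
      have := hP ((σ s)⁻¹ j)
      have := hR₁ ((σ₀ s)⁻¹ j)
      have := hP₁ ((σ₁ s)⁻¹ j)
      have := hR ((σ₀ s)⁻¹ j)
      rw [abs_le]; constructor <;> omega)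
    (by
      simp only [zpow_sub, zpow_add, Finset.prod_mul_distrib, Finset.prod_inv_distrib, mul_inv]
      rw [wtp_eq, wtp_eq, wtp_eq, wtp_eq] at h
      have h2 := div_eq_one.2 h
      rw [← h2]
      simp only [div_eq_mul_inv, mul_inv]
      ac_rfl)
    (fun s => by
      rw [Finset.sum_sub_distrib, Finset.sum_sub_distrib, Finset.sum_add_distrib,
        Finset.sum_add_distrib, Finset.sum_add_distrib, Finset.sum_add_distrib,
        Equiv.sum_comp (σ s)⁻¹ (fun i => (P i : ℤ)), Equiv.sum_comp (σ₀ s)⁻¹ (fun i => (R₁ i : ℤ)),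
        Equiv.sum_comp (σ₁ s)⁻¹ (fun i => (P₁ i : ℤ)), Equiv.sum_comp (σ₀ s)⁻¹ (fun i => (R i : ℤ))])
    s ((σ₀ s)⁻¹ j) j
  omega

end Pool.Agent.Helper1x.EM
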